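import Pool.Agent.Helper32.OIP.Goals

set_option autoImplicit false

open MeasureTheory

namespace Pool.Agent.Helper42.OIP

open Pool.Agent.Helper32.OIP Pool.Agent.Helper58.Orb

section Aux

variable {A E M M' : Type} [MeasurableSpace E]

theorem measurable_glue (T : Set A) :
    Measurable (fun p : (A → E) × (A → E) => glue T p.1 p.2) := by
  classical
  rw [measurable_pi_iff]
  intro a
  by_cases h : a ∈ T
  · have : (fun p : (A → E) × (A → E) => glue T p.1 p.2 a) = fun p => p.1 a := by
      funext p
      simp [glue, h]
    rw [this]
    exact (measurable_pi_apply a).comp measurable_fst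
  · have : (fun p : (A → E) × (A → E) => glue T p.1 p.2 a) = fun p => p.2 a := by
      funext p
      simp [glue, h]
    rw [this]
    exact (measurable_pi_apply a).comp measurable_snd

theorem measurable_cp (μ : Measure (A → E)) [IsProbabilityMeasure μ] (X : (A → E) → M)
    (hX : ∀ m, MeasurableSet {z | X z = m}) (T : Set A) (m : M) :
    Measurable (fun z => cp μ X T z m) := by
  have hS : MeasurableSet {p : (A → E) × (A → E) | X (glue T p.1 p.2) = m} :=
    measurable_glue T (hX m)
  have h := measurable_measure_prodMk_left (ν := μ) hS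
  exact h.ennreal_toReal

theorem cp_nonneg (μ : Measure (A → E)) (X : (A → E) → M) (T : Set A) (z : A → E) (m : M) :
    0 ≤ cp μ X T z m := measureReal_nonneg

theorem cp_le_one (μ : Measure (A → E)) [IsProbabilityMeasure μ] (X : (A → E) → M) (T : Set A)
    (z : A → E) (m : M) : cp μ X T z m ≤ 1 := measureReal_le_one

/-- pushing forward the conditional law -/
theorem cp_comp (μ : Measure (A → E)) [IsProbabilityMeasure μ] [Fintype M] [DecidableEq M']
    (X : (A → E) → M) (hX : ∀ m, MeasurableSet {z | X z = m}) (φ : M → M') (T : Set A)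
    (z : A → E) (m' : M') :
    cp μ (fun z => φ (X z)) T z m' =
      ∑ m ∈ Finset.univ.filter (fun m => φ m = m'), cp μ X T z m := by
  unfold cp
  have h1 : {w | φ (X (glue T z w)) = m'} =
      ⋃ m ∈ Finset.univ.filter (fun m => φ m = m'), {w | X (glue T z w) = m} := by
    ext w
    simp
  rw [h1]
  refine measureReal_biUnion_finset ?_ ?_
  · intro m _ m2 _ hne
    refine Set.disjoint_left.2 (fun w hw hw2 => hne ?_)
    exact (hw.symm.trans hw2)
  · intro m _
    exact ((measurable_glue T).comp (measurable_const.prodMk measurable_id)) (hX m)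

end Aux

section Bdd

variable {M : Type}

theorem bdd_of_continuous (g : (M → ℝ) → ℝ) (hg : Continuous g) :
    ∃ C : ℝ, ∀ p : M → ℝ, (∀ m, 0 ≤ p m) → (∀ m, p m ≤ 1) → ‖g p‖ ≤ C := by
  have hc : IsCompact (Set.Icc (0 : M → ℝ) 1) := isCompact_Icc
  obtain ⟨C, hC⟩ := hc.exists_bound_of_continuousOn hg.continuousOn
  refine ⟨C, fun p h0 h1 => hC p ⟨?_, ?_⟩⟩
  · intro m
    exact h0 m
  · intro m
    exact h1 m

end Bdd

theorem e2 : GoalE2 := by
  classical
  intro hE1 hMA2 A E M M' _ _ _ ν _ X φ T j hX hj
  have hμ : IsProbabilityMeasure (pm A ν) := by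
    unfold pm
    infer_instance
  obtain ⟨-, -, -, hupd⟩ := hMA2
  have hU := hupd A E ν j
  generalize hμdef : pm A ν = μ at *
  -- the concave function
  set g0 : (M → ℝ) → ℝ := fun p => ∑ m, Real.negMulLog (p m) with hg0
  set g1 : (M → ℝ) → ℝ := fun p =>
    ∑ m', Real.negMulLog (∑ m ∈ Finset.univ.filter (fun m => φ m = m'), p m) with hg1
  have hg0c : Continuous g0 :=
    continuous_finsetSum _ (fun m _ => Real.continuous_negMulLog.comp (continuous_apply m))
  have hg1c : Continuous g1 :=
    continuous_finsetSum _ (fun m' _ => Real.continuous_negMulLog.comp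
      (continuous_finsetSum _ (fun m _ => continuous_apply m)))
  have hconc : ConcaveOn ℝ {p : M → ℝ | ∀ m, 0 ≤ p m} (fun p => g0 p - g1 p) := hE1 M M' φ
  have hPm : ∀ S : Set A, Measurable (fun z => cp μ X S z) := fun S =>
    measurable_pi_iff.2 (fun m => measurable_cp μ X hX S m)
  -- integrability of continuous functions of the conditional law
  have hint : ∀ (g : (M → ℝ) → ℝ), Continuous g → ∀ S : Set A,
      Integrable (fun z => g (cp μ X S z)) μ := by
    intro g hg S
    obtain ⟨C, hC⟩ := bdd_of_continuous g hg
    exact Integrable.of_bound ((hg.measurable.comp (hPm S)).aestronglyMeasurable) C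
      (Filter.Eventually.of_forall
        (fun z => hC _ (fun m => cp_nonneg μ X S z m) (fun m => cp_le_one μ X S z m)))
  have hdiff : ∀ S : Set A, hc μ X S - hc μ (fun z => φ (X z)) S =
      ∫ z, (g0 (cp μ X S z) - g1 (cp μ X S z)) ∂μ := by
    intro S
    rw [integral_sub (hint g0 hg0c S) (hint g1 hg1c S)]
    congr 1
    unfold hc
    refine integral_congr_ae (Filter.Eventually.of_forall (fun z => ?_))
    simp only [hg1]
    refine Finset.sum_congr rfl (fun m' _ => ?_)
    rw [cp_comp μ X hX φ S z m']
  -- the law after revealing the coordinate `j`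
  have hupdm : Measurable (fun p : (A → E) × E => Function.update p.1 j p.2) := hU.measurable
  have hglue : ∀ (z w : A → E) (e : E), glue T z (Function.update w j e) =
      glue (insert j T) (Function.update z j e) w := by
    intro z w e
    funext a
    unfold glue
    by_cases ha : a = j
    · subst ha
      simp [hj]
    · by_cases haT : a ∈ T
      · simp [haT, ha]
      · simp [haT, ha]
  have havg : ∀ (z : A → E) (m : M), cp μ X T z m =
      ∫ e, cp μ X (insert j T) (Function.update z j e) m ∂ν := by
    intro z m
    have hS : MeasurableSet {w : A → E | X (glue T z w) = m} :=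
      ((measurable_glue T).comp (measurable_const.prodMk measurable_id)) (hX m)
    have h1 : cp μ X T z m =
        (μ.prod ν).real ((fun p : (A → E) × E => Function.update p.1 j p.2) ⁻¹'
          {w : A → E | X (glue T z w) = m}) := by
      unfold cp
      rw [measureReal_def, measureReal_def, hU.measure_preimage hS.nullMeasurableSet]
    have h2 : (μ.prod ν).real ((fun p : (A → E) × E => Function.update p.1 j p.2) ⁻¹'
          {w : A → E | X (glue T z w) = m}) =
        ∫ e, μ.real ((fun w => (w, e)) ⁻¹' ((fun p : (A → E) × E => Function.update p.1 j p.2) ⁻¹'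
          {w : A → E | X (glue T z w) = m})) ∂ν := by
      rw [measureReal_def, Measure.prod_apply_symm (hupdm hS)]
      rw [← integral_toReal]
      · rfl
      · exact (measurable_measure_prodMk_right (hupdm hS)).aemeasurable
      · exact Filter.Eventually.of_forall (fun e => measure_lt_top _ _)
    rw [h1, h2]
    refine integral_congr_ae (Filter.Eventually.of_forall (fun e => ?_))
    simp only [cp]
    congr 1
    ext w
    simp only [Set.mem_preimage, Set.mem_ofPred_eq]
    rw [hglue]
  have hupdz : ∀ z : A → E, Measurable (fun e : E => Function.update z j e) := fun z =>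
    hupdm.comp (measurable_const.prodMk measurable_id)
  have hg : Continuous (fun p : M → ℝ => g0 p - g1 p) := hg0c.sub hg1c
  -- Jensen
  have hjen : ∀ z : A → E,
      (∫ e, (g0 (cp μ X (insert j T) (Function.update z j e)) -
        g1 (cp μ X (insert j T) (Function.update z j e))) ∂ν) ≤
      g0 (cp μ X T z) - g1 (cp μ X T z) := by
    intro z
    have hfm : Measurable (fun e => cp μ X (insert j T) (Function.update z j e)) :=
      (hPm _).comp (hupdz z)
    have hfi : ∀ m, Integrable (fun e => cp μ X (insert j T) (Function.update z j e) m) ν := by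
      intro m
      refine Integrable.of_bound (((measurable_pi_apply m).comp hfm).aestronglyMeasurable) 1
        (Filter.Eventually.of_forall (fun e => ?_))
      rw [Real.norm_eq_abs, abs_of_nonneg (cp_nonneg μ X _ _ m)]
      exact cp_le_one μ X _ _ m
    obtain ⟨C, hC⟩ := bdd_of_continuous _ hg
    have h := hconc.le_map_integral (μ := ν)
      (f := fun e => cp μ X (insert j T) (Function.update z j e)) hg.continuousOn ?_ ?_ ?_ ?_
    · have he : (∫ e, cp μ X (insert j T) (Function.update z j e) ∂ν) = cp μ X T z := by
        funext m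
        rw [eval_integral (f := fun e => cp μ X (insert j T) (Function.update z j e)) hfi m]
        exact (havg z m).symm
      rw [he] at h
      exact h
    · have : {p : M → ℝ | ∀ m, 0 ≤ p m} = ⋂ m, {p : M → ℝ | 0 ≤ p m} := by
        ext p
        simp
      rw [this]
      exact isClosed_iInter (fun m => isClosed_le continuous_const (continuous_apply m))
    · exact Filter.Eventually.of_forall (fun e m => cp_nonneg μ X _ _ m)
    · exact Integrable.of_eval hfi
    · exact Integrable.of_bound ((hg.measurable.comp hfm).aestronglyMeasurable) C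
        (Filter.Eventually.of_forall
          (fun e => hC _ (fun m => cp_nonneg μ X _ _ m) (fun m => cp_le_one μ X _ _ m)))
  -- integrate
  have hmain : ∫ z, (g0 (cp μ X (insert j T) z) - g1 (cp μ X (insert j T) z)) ∂μ ≤
      ∫ z, (g0 (cp μ X T z) - g1 (cp μ X T z)) ∂μ := by
    have hms : Measurable (fun z => g0 (cp μ X (insert j T) z) - g1 (cp μ X (insert j T) z)) :=
      hg.measurable.comp (hPm _)
    have hI : Integrable (fun z => g0 (cp μ X (insert j T) z) - g1 (cp μ X (insert j T) z)) μ :=
      hint _ hg _
    have h1 : ∫ z, (g0 (cp μ X (insert j T) z) - g1 (cp μ X (insert j T) z)) ∂μ =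
        ∫ p, (g0 (cp μ X (insert j T) (Function.update p.1 j p.2)) -
          g1 (cp μ X (insert j T) (Function.update p.1 j p.2))) ∂(μ.prod ν) := by
      have h := integral_map (μ := μ.prod ν) hU.measurable.aemeasurable
        (f := fun z => g0 (cp μ X (insert j T) z) - g1 (cp μ X (insert j T) z))
        hms.aestronglyMeasurable
      rw [hU.map_eq] at h
      exact h
    have hI2 : Integrable (fun p : (A → E) × E =>
        g0 (cp μ X (insert j T) (Function.update p.1 j p.2)) -
          g1 (cp μ X (insert j T) (Function.update p.1 j p.2))) (μ.prod ν) :=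
      (hU.integrable_comp hms.aestronglyMeasurable).2 hI
    rw [h1, integral_prod _ hI2]
    exact integral_mono hI2.integral_prod_left (hint _ hg _) hjen
  have h1 := hdiff T
  have h2 := hdiff (insert j T)
  linarith

end Pool.Agent.Helper42.OIP
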